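import Mathlib

/-! Products of two binomial coefficients as weights of the levels. -/

set_option autoImplicit false

namespace Pool.Agent.Run7.h739.RD

open Finset

/-- summation over the middle element -/
theorem sum_choose (b : ℕ) : ∀ M a : ℕ,
    ∑ j ∈ range (M + 1), j.choose a * (M - j).choose b = (M + 1).choose (a + b + 1) := by
  intro M
  induction M with
  | zero =>
    intro a
    rw [sum_range_one]
    rcases a with _ | a <;> rcases b with _ | b
    · simp
    all_goals
      rw [Nat.choose_eq_zero_of_lt (show 0 + 1 < _ by omega)]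
      simp
  | succ M ih =>
    intro a
    rw [sum_range_succ']
    have h : ∀ j, M + 1 - (j + 1) = M - j := fun j => by omega
    simp only [h]
    rcases a with _ | a
    · have h1 := ih 0
      simp only [Nat.choose_zero_right, one_mul, zero_add] at h1 ⊢
      rw [h1, Nat.choose_succ_succ (M + 1) b, add_comm]
      simp
    · simp only [Nat.choose_succ_succ _ a, add_mul, sum_add_distrib]
      rw [ih a, ih (a + 1)]
      have e : a + 1 + b + 1 = (a + b + 1) + 1 := by ring
      rw [e, Nat.choose_succ_succ (M + 1) (a + b + 1)]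
      simp

/-- the weight of the level `j` -/
def g (M h j : ℕ) : ℕ := j.choose h * (M - j).choose h

theorem g_symm {M h j : ℕ} (hj : j ≤ M) : g M h (M - j) = g M h j := by
  unfold g
  rw [Nat.sub_sub_self hj, mul_comm]

theorem g_step {M h j : ℕ} (hj : 2 * j + 1 ≤ M) : g M h j ≤ g M h (j + 1) := by
  unfold g
  by_cases hjh : j < h
  · rw [Nat.choose_eq_zero_of_lt hjh]; simp
  push Not at hjh
  obtain ⟨a, rfl⟩ := Nat.exists_eq_add_of_le hjh
  obtain ⟨b, hb⟩ := Nat.exists_eq_add_of_le (show h + a + 1 + h ≤ M - (h + a) + h by omega)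
  have e1 : M - (h + a) = h + a + 1 + b := by omega
  have e2 : M - (h + a + 1) = h + a + b := by omega
  rw [e1, e2]
  have h1 := Nat.choose_mul_succ_eq (h + a) h
  have h2 := Nat.choose_mul_succ_eq (h + a + b) h
  have s1 : h + a + 1 - h = a + 1 := by omega
  have s2 : h + a + b + 1 - h = a + b + 1 := by omega
  rw [s1] at h1
  rw [s2] at h2
  have e3 : h + a + 1 + b = h + a + b + 1 := by ring
  rw [e3]
  set x := (h + a).choose h
  set y := (h + a + 1).choose h
  set u := (h + a + b).choose h
  set v := (h + a + b + 1).choose h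
  -- x (h+a+1) = y (a+1), u (h+a+b+1) = v (a+b+1), want x v ≤ y u
  have h3 : x * v * ((h + a + 1) * (a + b + 1)) = y * u * ((a + 1) * (h + a + b + 1)) := by
    calc x * v * ((h + a + 1) * (a + b + 1)) = (x * (h + a + 1)) * (v * (a + b + 1)) := by ring
      _ = (y * (a + 1)) * (u * (h + a + b + 1)) := by rw [h1, h2]
      _ = _ := by ring
  have h4 : (a + 1) * (h + a + b + 1) ≤ (h + a + 1) * (a + b + 1) := by nlinarith
  have h5 : x * v * ((h + a + 1) * (a + b + 1)) ≤ y * u * ((h + a + 1) * (a + b + 1)) := by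
    rw [h3]
    exact Nat.mul_le_mul_left _ h4
  exact Nat.le_of_mul_le_mul_right h5 (by positivity)

theorem g_half {M h : ℕ} : ∀ d j : ℕ, j + d = M / 2 → g M h j ≤ g M h (M / 2) := by
  intro d
  induction d with
  | zero => intro j hj; rw [← hj, add_zero]
  | succ d ih =>
    intro j hj
    exact (g_step (by omega)).trans (ih (j + 1) (by omega))

theorem g_le {M h j : ℕ} (hj : j ≤ M) : g M h j ≤ g M h (M / 2) := by
  by_cases h1 : j ≤ M / 2
  · exact g_half (M / 2 - j) j (by omega)
  · push Not at h1
    rw [← g_symm hj]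
    exact g_half (M / 2 - (M - j)) (M - j) (by omega)

/-- the two ways of writing the multinomial coefficient -/
theorem multi (h a b : ℕ) :
    (h + a).choose h * (h + b).choose h * (h + h + (a + b)).choose (h + a) =
      (h + h + (a + b)).choose (h + h) * (h + h).choose h * (a + b).choose a := by
  have k1 := Nat.choose_mul_factorial_mul_factorial (show h ≤ h + a by omega)
  have k2 := Nat.choose_mul_factorial_mul_factorial (show h ≤ h + b by omega)
  have k3 := Nat.choose_mul_factorial_mul_factorial (show h + a ≤ h + h + (a + b) by omega)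
  have k4 := Nat.choose_mul_factorial_mul_factorial (show h + h ≤ h + h + (a + b) by omega)
  have k5 := Nat.choose_mul_factorial_mul_factorial (show h ≤ h + h by omega)
  have k6 := Nat.choose_mul_factorial_mul_factorial (show a ≤ a + b by omega)
  have s1 : h + a - h = a := by omega
  have s2 : h + b - h = b := by omega
  have s3 : h + h + (a + b) - (h + a) = h + b := by omega
  have s4 : h + h + (a + b) - (h + h) = a + b := by omega
  have s5 : h + h - h = h := by omega
  have s6 : a + b - a = b := by omega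
  rw [s1] at k1
  rw [s2] at k2
  rw [s3] at k3
  rw [s4] at k4
  rw [s5] at k5
  rw [s6] at k6
  have hp : 0 < h.factorial * a.factorial * (h.factorial * b.factorial) := by positivity
  apply Nat.eq_of_mul_eq_mul_right hp
  calc (h + a).choose h * (h + b).choose h * (h + h + (a + b)).choose (h + a) *
        (h.factorial * a.factorial * (h.factorial * b.factorial))
      = (h + h + (a + b)).choose (h + a) * ((h + a).choose h * h.factorial * a.factorial) *
        ((h + b).choose h * h.factorial * b.factorial) := by ring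
    _ = (h + h + (a + b)).factorial := by rw [k1, k2, k3]
    _ = (h + h + (a + b)).choose (h + h) * ((h + h).choose h * h.factorial * h.factorial) *
        ((a + b).choose a * a.factorial * b.factorial) := by rw [k5, k6, k4]
    _ = _ := by ring

/-- the middle value -/
theorem g_mid (h m : ℕ) : g (2 * h + m) h ((2 * h + m) / 2) * Nat.centralBinom (h + (m + 1) / 2) =
    (2 * h + m).choose (2 * h) * (Nat.centralBinom h * Nat.centralBinom ((m + 1) / 2)) := by
  unfold g
  rw [Nat.centralBinom_eq_two_mul_choose, Nat.centralBinom_eq_two_mul_choose,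
    Nat.centralBinom_eq_two_mul_choose]
  rcases Nat.even_or_odd' m with ⟨μ, rfl | rfl⟩
  · have e1 : (2 * h + 2 * μ) / 2 = h + μ := by omega
    have e2 : (2 * μ + 1) / 2 = μ := by omega
    have e3 : 2 * h + 2 * μ - (h + μ) = h + μ := by omega
    rw [e1, e2, e3]
    have := multi h μ μ
    have f1 : 2 * (h + μ) = h + h + (μ + μ) := by ring
    have f2 : 2 * h + 2 * μ = h + h + (μ + μ) := by ring
    rw [f1, f2, two_mul, two_mul, this]
    ring
  · have e1 : (2 * h + (2 * μ + 1)) / 2 = h + μ := by omega
    have e2 : (2 * μ + 1 + 1) / 2 = μ + 1 := by omega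
    have e3 : 2 * h + (2 * μ + 1) - (h + μ) = h + (μ + 1) := by omega
    rw [e1, e2, e3]
    have := multi h μ (μ + 1)
    have f1 : 2 * h + (2 * μ + 1) = h + h + (μ + (μ + 1)) := by ring
    have c1 : (2 * (h + (μ + 1))).choose (h + (μ + 1)) =
        2 * (h + h + (μ + (μ + 1))).choose (h + μ) := by
      have g1 : 2 * (h + (μ + 1)) = (h + h + (μ + (μ + 1))) + 1 := by ring
      have g2 : h + (μ + 1) = (h + μ) + 1 := by ring
      rw [g1, g2, Nat.choose_succ_succ]
      have g3 := Nat.choose_symm_half (h + μ)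
      have g4 : 2 * (h + μ) + 1 = h + h + (μ + (μ + 1)) := by ring
      rw [g4] at g3
      have g5 : h + h + (μ + (h + h + 0 + 1)) = h + h + (μ + (h + h + 0 + 1)) := rfl
      rw [g3]; ring
    have c2 : (2 * (μ + 1)).choose (μ + 1) = 2 * (μ + (μ + 1)).choose μ := by
      have g1 : 2 * (μ + 1) = (μ + (μ + 1)) + 1 := by ring
      rw [g1, Nat.choose_succ_succ]
      have g3 := Nat.choose_symm_half μ
      have g4 : 2 * μ + 1 = μ + (μ + 1) := by ring
      rw [g4] at g3
      rw [g3]; ring
    rw [c1, c2, f1, two_mul h]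
    calc (h + μ).choose h * (h + (μ + 1)).choose h * (2 * (h + h + (μ + (μ + 1))).choose (h + μ))
        = 2 * ((h + μ).choose h * (h + (μ + 1)).choose h *
          (h + h + (μ + (μ + 1))).choose (h + μ)) := by ring
      _ = _ := by rw [this]; ring

/-- upper bound for the central binomial coefficient -/
theorem cb_upper (n : ℕ) : (Nat.centralBinom n) ^ 2 * (2 * n + 1) ≤ 16 ^ n := by
  induction n with
  | zero => simp
  | succ n ih =>
    have h := Nat.succ_mul_centralBinom_succ n
    set x := Nat.centralBinom n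
    set y := Nat.centralBinom (n + 1)
    -- (n+1) y = 2 (2n+1) x
    have h1 : (n + 1) ^ 2 * (y ^ 2 * (2 * (n + 1) + 1)) ≤ (n + 1) ^ 2 * 16 ^ (n + 1) := by
      calc (n + 1) ^ 2 * (y ^ 2 * (2 * (n + 1) + 1)) = ((n + 1) * y) ^ 2 * (2 * n + 3) := by ring
        _ = (2 * (2 * n + 1) * x) ^ 2 * (2 * n + 3) := by rw [h]
        _ = (x ^ 2 * (2 * n + 1)) * (4 * ((2 * n + 1) * (2 * n + 3))) := by ring
        _ ≤ 16 ^ n * (4 * ((2 * n + 1) * (2 * n + 3))) := Nat.mul_le_mul_right _ ih
        _ ≤ 16 ^ n * (16 * (n + 1) ^ 2) := by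
            apply Nat.mul_le_mul_left
            nlinarith
        _ = _ := by ring
    exact Nat.le_of_mul_le_mul_left h1 (by positivity)

/-- lower bound for the central binomial coefficient -/
theorem cb_lower {n : ℕ} (hn : 1 ≤ n) : 16 ^ n ≤ 4 * n * (Nat.centralBinom n) ^ 2 := by
  induction n, hn using Nat.le_induction with
  | base => simp [Nat.centralBinom]
  | succ n hn ih =>
    have h := Nat.succ_mul_centralBinom_succ n
    set x := Nat.centralBinom n
    set y := Nat.centralBinom (n + 1)
    have h1 : (n + 1) * 16 ^ (n + 1) ≤ (n + 1) * (4 * (n + 1) * y ^ 2) := by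
      calc (n + 1) * 16 ^ (n + 1) = 16 * (n + 1) * 16 ^ n := by ring
        _ ≤ 16 * (n + 1) * (4 * n * x ^ 2) := Nat.mul_le_mul_left _ ih
        _ ≤ 4 * (2 * (2 * n + 1) * x) ^ 2 := by
            have : 4 * n * (n + 1) ≤ (2 * n + 1) ^ 2 := by nlinarith
            calc 16 * (n + 1) * (4 * n * x ^ 2) = (4 * n * (n + 1)) * (16 * x ^ 2) := by ring
              _ ≤ (2 * n + 1) ^ 2 * (16 * x ^ 2) := Nat.mul_le_mul_right _ this
              _ = _ := by ring
        _ = 4 * ((n + 1) * y) ^ 2 := by rw [h]
        _ = _ := by ring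
    exact Nat.le_of_mul_le_mul_left h1 (by positivity)

/-- the quotient of central binomial coefficients -/
theorem cb_ratio {h μ : ℕ} (hμ : 1 ≤ μ) :
    ((Nat.centralBinom h : ℝ) * Nat.centralBinom μ / Nat.centralBinom (h + μ)) ^ 2 ≤
      4 * (h + μ) / ((2 * h + 1) * (2 * μ + 1)) := by
  have h1 : ((Nat.centralBinom h : ℝ)) ^ 2 * (2 * h + 1) ≤ 16 ^ h := by exact_mod_cast cb_upper h
  have h2 : ((Nat.centralBinom μ : ℝ)) ^ 2 * (2 * μ + 1) ≤ 16 ^ μ := by exact_mod_cast cb_upper μ
  have h3 : (16 : ℝ) ^ (h + μ) ≤ 4 * (h + μ) * ((Nat.centralBinom (h + μ) : ℝ)) ^ 2 := by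
    exact_mod_cast cb_lower (n := h + μ) (by omega)
  have p : (0 : ℝ) < Nat.centralBinom (h + μ) := by
    exact_mod_cast Nat.centralBinom_pos (h + μ)
  rw [div_pow, div_le_div_iff₀ (by positivity) (by positivity)]
  calc ((Nat.centralBinom h : ℝ) * Nat.centralBinom μ) ^ 2 * ((2 * h + 1) * (2 * μ + 1))
      = (((Nat.centralBinom h : ℝ)) ^ 2 * (2 * h + 1)) *
        (((Nat.centralBinom μ : ℝ)) ^ 2 * (2 * μ + 1)) := by ring
    _ ≤ 16 ^ h * 16 ^ μ := by gcongr
    _ = 16 ^ (h + μ) := (pow_add _ _ _).symm
    _ ≤ _ := h3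

end Pool.Agent.Run7.h739.RD
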