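import Pool.Agent.Run7.h739.RD.Binom
import Pool.Agent.Run7.h739.HD.Transfer
import Pool.Agent.Y344.KD.Sum

/-! The average number of bisectors over the subsets of given size. -/

set_option autoImplicit false

namespace Pool.Agent.Run7.h739.RD

open Finset Pool.Agent.Y344.KD Pool.Agent.Run7.h739.HD

open Pool.Agent.H189R2.Lev (ht)
open Pool.Agent.H189R2.Iid (T low lev mem_T fst_notMem_low snd_notMem_low)
open Pool.Agent.Y429.HalvFew (shr shr_inj cr_shr below_iff bis_le gp_shear exists_shear)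
open Pool.Agent.TH124.KE (sl hh kes mem_kes bel hh_sl sl_comm)
open Pool.Agent.W296.HL (Line GeneralPosition IsBisector Gen gen_of_gp)

/-- the number of subsets in which `q` is a halving pair -/
theorem surv_le {N : ℕ} {P' : Fin N → ℝ × ℝ} {q : Fin N × Fin N} (hq : q ∈ T P') (h : ℕ) :
    #{R ∈ powersetCard (2 * h + 2) (univ : Finset (Fin N)) | q.1 ∈ R ∧ q.2 ∈ R ∧
      #(lowSet P' q ∩ R) = h} ≤ g (N - 2) h (lev P' q) := by
  classical
  set L := lowSet P' q with hL
  have hlt := mem_T.mp hq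
  have hne : q.1 ≠ q.2 := fun he => by rw [he] at hlt; exact lt_irrefl _ hlt
  have n1 : q.1 ∉ L := by
    rw [hL]
    unfold lowSet
    rw [mem_filter]
    exact fun hh => fst_notMem_low _ _ hh.2
  have n2 : q.2 ∉ L := by
    rw [hL]
    unfold lowSet
    rw [mem_filter]
    exact fun hh => snd_notMem_low hlt hh.2
  set E : Finset (Fin N) := {q.1, q.2} with hE
  have hEc : #E = 2 := card_pair hne
  have hd : Disjoint L E := by
    rw [hE, disjoint_insert_right, disjoint_singleton_right]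
    exact ⟨n1, n2⟩
  set U := univ \ (L ∪ E) with hU
  have hUc : #U = N - 2 - #L := by
    rw [hU, card_sdiff_of_subset (subset_univ _), card_union_of_disjoint hd, hEc, card_univ,
      Fintype.card_fin]
    omega
  have hlev : lev P' q = #L := lev_eq P' q
  have hle : #{R ∈ powersetCard (2 * h + 2) (univ : Finset (Fin N)) | q.1 ∈ R ∧ q.2 ∈ R ∧
      #(L ∩ R) = h} ≤ #(powersetCard h L ×ˢ powersetCard h U) := by
    apply card_le_card_of_injOn (fun R => (L ∩ R, U ∩ R))
    · intro R hR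
      rw [mem_coe, mem_filter, mem_powersetCard] at hR
      obtain ⟨⟨-, r1⟩, r2, r3, r4⟩ := hR
      rw [mem_coe, mem_product, mem_powersetCard, mem_powersetCard]
      refine ⟨⟨inter_subset_left, r4⟩, inter_subset_left, ?_⟩
      have e1 : R = ((L ∩ R) ∪ (U ∩ R)) ∪ E := by
        ext x
        simp only [mem_union, mem_inter, hU, mem_sdiff, mem_univ, true_and, not_or]
        constructor
        · intro hx
          by_cases hxL : x ∈ L
          · exact Or.inl (Or.inl ⟨hxL, hx⟩)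
          · by_cases hxE : x ∈ E
            · exact Or.inr hxE
            · exact Or.inl (Or.inr ⟨⟨hxL, hxE⟩, hx⟩)
        · rintro ((hx | hx) | hx)
          · exact hx.2
          · exact hx.2
          · rw [hE, mem_insert, mem_singleton] at hx
            rcases hx with rfl | rfl
            · exact r2
            · exact r3
      have d1 : Disjoint (L ∩ R) (U ∩ R) := by
        rw [Finset.disjoint_left]
        intro x hx hx'
        rw [mem_inter] at hx hx'
        rw [hU, mem_sdiff, mem_union] at hx'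
        exact hx'.1.2 (Or.inl hx.1)
      have d2 : Disjoint ((L ∩ R) ∪ (U ∩ R)) E := by
        rw [Finset.disjoint_left]
        intro x hx hx'
        rw [mem_union, mem_inter, mem_inter] at hx
        rcases hx with hx | hx
        · exact Finset.disjoint_left.mp hd hx.1 hx'
        · rw [hU, mem_sdiff, mem_union] at hx
          exact hx.1.2 (Or.inr hx')
      have e2 := congrArg card e1
      rw [card_union_of_disjoint d2, card_union_of_disjoint d1, hEc, r1, r4] at e2
      show #(U ∩ R) = h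
      omega
    · intro R hR R' hR' he
      rw [mem_coe, mem_filter, mem_powersetCard] at hR hR'
      simp only [Prod.mk.injEq] at he
      ext x
      by_cases hxL : x ∈ L
      · have := Finset.ext_iff.mp he.1 x
        simp only [mem_inter, hxL, true_and] at this
        exact this
      · by_cases hxE : x ∈ E
        · rw [hE, mem_insert, mem_singleton] at hxE
          rcases hxE with rfl | rfl
          · exact ⟨fun _ => hR'.2.1, fun _ => hR.2.1⟩
          · exact ⟨fun _ => hR'.2.2.1, fun _ => hR.2.2.1⟩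
        · have hxU : x ∈ U := by
            rw [hU, mem_sdiff, mem_union]
            exact ⟨mem_univ _, fun hh => hh.elim hxL hxE⟩
          have := Finset.ext_iff.mp he.2 x
          simp only [mem_inter, hxU, true_and] at this
          exact this
  refine hle.trans (le_of_eq ?_)
  rw [card_product, card_powersetCard, card_powersetCard, hUc, hlev]
  rfl

variable {P : Finset (ℝ × ℝ)} {ε : ℝ}

open scoped Classical in
/-- the bisectors of a subset -/
theorem bis_keep {P' : Fin #P → ℝ × ℝ} (hG : Good P ε P')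
    (hε : ∀ x ∈ P, ∀ y ∈ P, (shr ε x).1 = (shr ε y).1 → x = y) (R : Finset (Fin #P)) :
    {L | IsBisector (R.image (v0 P)) L}.ncard ≤
      #{q ∈ T P' | q.1 ∈ R ∧ q.2 ∈ R ∧ #(lowSet P' q ∩ R) = #R / 2 - 1} := by
  have hsub : R.image (v0 P) ⊆ P := by
    intro p hp
    obtain ⟨i, -, rfl⟩ := mem_image.mp hp
    exact v0_mem P i
  have h := bis_le (P := R.image (v0 P)) (ε := ε)
    (fun x hx y hy hxy => hε x (hsub hx) y (hsub hy) hxy)
  rw [card_image_of_injective _ (v0_inj P)] at h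
  refine h.trans ?_
  apply card_le_card_of_surjOn (fun q : Fin #P × Fin #P =>
    (shr ε (v0 P q.2), shr ε (v0 P q.1)))
  rintro ⟨x, y⟩ he
  rw [mem_coe, mem_kes] at he
  obtain ⟨hx, hy, hlt, hb⟩ := he
  dsimp only at hx hy hlt hb
  rw [image_image] at hx hy
  obtain ⟨j, hj, rfl⟩ := mem_image.mp hx
  obtain ⟨i, hi, rfl⟩ := mem_image.mp hy
  have hij : va P ε j < va P ε i := hlt
  refine ⟨(i, j), ?_, rfl⟩
  rw [mem_coe, mem_filter]
  refine ⟨mem_T.mpr (hG.2 i j hij).1, hi, hj, ?_⟩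
  rw [← hb]
  unfold bel
  rw [image_image, filter_image, card_image_of_injective _ ((shr_inj ε).comp (v0_inj P))]
  congr 1
  ext l
  rw [mem_inter, mem_filter]
  unfold lowSet
  rw [mem_filter, (hG.2 i j hij).2 l]
  simp only [mem_univ, true_and, Function.comp_apply]
  exact and_comm

/-- summation over all subsets of size `2 h + 2` -/
theorem sum_bis {P' : Fin #P → ℝ × ℝ} (hG : Good P ε P')
    (hε : ∀ x ∈ P, ∀ y ∈ P, (shr ε x).1 = (shr ε y).1 → x = y) (h : ℕ) :
    ∑ R ∈ P.powersetCard (2 * h + 2), {L | IsBisector R L}.ncard ≤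
      ∑ q ∈ T P', g (#P - 2) h (lev P' q) := by
  classical
  set e : Fin #P ↪ ℝ × ℝ := ⟨v0 P, v0_inj P⟩ with he
  have hPe : P = univ.map e := by
    rw [map_eq_image]
    exact (image_v0 P).symm
  have h1 : ∑ R ∈ P.powersetCard (2 * h + 2), {L | IsBisector R L}.ncard =
      ∑ R ∈ powersetCard (2 * h + 2) (univ : Finset (Fin #P)),
        {L | IsBisector (R.image (v0 P)) L}.ncard := by
    have h2 : P.powersetCard (2 * h + 2) =
        (powersetCard (2 * h + 2) (univ : Finset (Fin #P))).map (mapEmbedding e).toEmbedding := by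
      rw [← powersetCard_map, ← hPe]
    rw [h2, sum_map]
    apply sum_congr rfl
    intro R _
    have : (mapEmbedding e).toEmbedding R = R.image (v0 P) := by
      change R.map e = _
      rw [map_eq_image]
      rfl
    rw [this]
  rw [h1]
  calc ∑ R ∈ powersetCard (2 * h + 2) (univ : Finset (Fin #P)),
        {L | IsBisector (R.image (v0 P)) L}.ncard
      ≤ ∑ R ∈ powersetCard (2 * h + 2) (univ : Finset (Fin #P)),
        #{q ∈ T P' | q.1 ∈ R ∧ q.2 ∈ R ∧ #(lowSet P' q ∩ R) = h} := by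
        apply sum_le_sum
        intro R hR
        have := bis_keep hG hε R
        rw [(mem_powersetCard.mp hR).2] at this
        have e1 : (2 * h + 2) / 2 - 1 = h := by omega
        rw [e1] at this
        exact this
    _ = ∑ R ∈ powersetCard (2 * h + 2) (univ : Finset (Fin #P)),
        ∑ q ∈ T P', (if q.1 ∈ R ∧ q.2 ∈ R ∧ #(lowSet P' q ∩ R) = h then 1 else 0) := by
        apply sum_congr rfl
        intro R _
        rw [card_filter]
    _ = ∑ q ∈ T P', #{R ∈ powersetCard (2 * h + 2) (univ : Finset (Fin #P)) | q.1 ∈ R ∧ q.2 ∈ R ∧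
        #(lowSet P' q ∩ R) = h} := by
        rw [sum_comm]
        apply sum_congr rfl
        intro q _
        rw [card_filter]
    _ ≤ _ := sum_le_sum (fun q hq => surv_le hq h)

/-- the largest weight -/
theorem weight_sq {N h j : ℕ} (hN : 2 * h + 2 < N) (hj : j ≤ N - 2) :
    ((g (N - 2) h j : ℝ) * (N / ((2 * h + 2) * N.choose (2 * h + 2)))) ^ 2 ≤
      4 * (2 * h + 2) / (N * (N - (2 * h + 2))) := by
  obtain ⟨m, rfl⟩ := Nat.exists_eq_add_of_lt hN
  -- N = 2 h + 2 + m + 1
  set m' := m + 1 with hm'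
  have eM : 2 * h + 2 + m + 1 - 2 = 2 * h + m' := by omega
  rw [eM] at hj ⊢
  have h1 := g_le (M := 2 * h + m') (h := h) hj
  have h2 := g_mid h m'
  set μ := (m' + 1) / 2 with hμ
  have hμ1 : 1 ≤ μ := by omega
  have h3 := cb_ratio (h := h) (μ := μ) hμ1
  set cb := Nat.centralBinom with hcb
  have p1 : (0 : ℝ) < cb (h + μ) := by exact_mod_cast Nat.centralBinom_pos _
  set C := (2 * h + m').choose (2 * h) with hC
  have pC : (0 : ℝ) < C := by
    exact_mod_cast Nat.choose_pos (by omega)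
  -- the ratio
  have h4 : (g (2 * h + m') h j : ℝ) ≤ C * ((cb h : ℝ) * cb μ / cb (h + μ)) := by
    rw [mul_div_assoc', le_div_iff₀ p1]
    have h5 : g (2 * h + m') h j * cb (h + μ) ≤ C * (cb h * cb μ) := by
      calc g (2 * h + m') h j * cb (h + μ) ≤ g (2 * h + m') h ((2 * h + m') / 2) * cb (h + μ) :=
            Nat.mul_le_mul_right _ h1
        _ = _ := h2
    exact_mod_cast h5
  -- the binomial coefficient
  have h6 : ((2 * h + 2 + m + 1).choose (2 * h + 2) : ℝ) * ((2 * h + 2) * (2 * h + 1)) =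
      (2 * h + 2 + m + 1) * ((2 * h + m' + 1) * C) := by
    have a1 := Nat.add_one_mul_choose_eq (2 * h + m' + 1) (2 * h + 1)
    have a2 := Nat.add_one_mul_choose_eq (2 * h + m') (2 * h)
    have b1 : 2 * h + 2 + m + 1 = 2 * h + m' + 1 + 1 := by omega
    rw [b1]
    have a3 : (((2 * h + m' + 1 + 1).choose (2 * h + 1 + 1) * (2 * h + 1 + 1) * (2 * h + 1) : ℕ) : ℝ)
        = (((2 * h + m' + 1 + 1) * ((2 * h + m' + 1) * C) : ℕ) : ℝ) := by
      congr 1
      rw [← a1, hC]
      calc (2 * h + m' + 1 + 1) * (2 * h + m' + 1).choose (2 * h + 1) * (2 * h + 1)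
          = (2 * h + m' + 1 + 1) * ((2 * h + m' + 1).choose (2 * h + 1) * (2 * h + 1)) := by ring
        _ = _ := by rw [← a2]
    have b2 : 2 * h + 2 = 2 * h + 1 + 1 := rfl
    rw [b2]
    push_cast at a3 ⊢
    rw [hm'] at a3 ⊢
    push_cast at a3 ⊢
    linarith
  set Nr : ℝ := (2 * h + 2 + m + 1 : ℝ) with hNr
  have hcast : ((2 * h + 2 + m + 1 : ℕ) : ℝ) = Nr := by push_cast; ring
  rw [hcast]
  set B : ℝ := ((2 * h + 2 + m + 1).choose (2 * h + 2) : ℝ) with hB
  have hB0 : 0 < B := by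
    rw [hB]
    exact_mod_cast Nat.choose_pos (by omega)
  set M1 : ℝ := (2 * h + m' + 1 : ℝ) with hM1
  have hh0 : (0 : ℝ) ≤ h := Nat.cast_nonneg h
  have hm0 : (0 : ℝ) ≤ m := Nat.cast_nonneg m
  have hm'r : (m' : ℝ) = m + 1 := by rw [hm']; push_cast; ring
  have hM1p : 0 < M1 := by rw [hM1]; positivity
  have hNp : 0 < Nr := by rw [hNr]; positivity
  have h7 : Nr / ((2 * h + 2) * B) = (2 * h + 1) / (M1 * C) := by
    rw [div_eq_div_iff (by positivity) (by positivity)]
    linarith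
  rw [h7]
  set ρ : ℝ := (cb h : ℝ) * cb μ / cb (h + μ) with hρ
  have hg0 : (0 : ℝ) ≤ g (2 * h + m') h j := Nat.cast_nonneg _
  have h8 : (g (2 * h + m') h j : ℝ) * ((2 * h + 1) / (M1 * C)) ≤ ρ * ((2 * h + 1) / M1) := by
    calc (g (2 * h + m') h j : ℝ) * ((2 * h + 1) / (M1 * C))
        ≤ (C * ρ) * ((2 * h + 1) / (M1 * C)) := by gcongr
      _ = _ := by field_simp
  have hμr : (2 * μ : ℝ) ≤ m + 2 := by
    have : 2 * μ ≤ m + 2 := by omega
    exact_mod_cast this
  have hμr' : (m + 1 : ℝ) ≤ 2 * μ := by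
    have : m + 1 ≤ 2 * μ := by omega
    exact_mod_cast this
  calc ((g (2 * h + m') h j : ℝ) * ((2 * h + 1) / (M1 * C))) ^ 2
      ≤ (ρ * ((2 * h + 1) / M1)) ^ 2 := by gcongr
    _ = ρ ^ 2 * ((2 * h + 1) / M1) ^ 2 := by ring
    _ ≤ (4 * (h + μ) / ((2 * h + 1) * (2 * μ + 1))) * ((2 * h + 1) / M1) ^ 2 := by gcongr
    _ = (4 * (h + μ)) * (2 * h + 1) / ((2 * μ + 1) * M1 ^ 2) := by
        field_simp
    _ ≤ (2 * M1) * (2 * h + 2) / ((m + 1) * M1 ^ 2) := by
        have e1 : (4 * (h + μ) : ℝ) ≤ 2 * M1 := by rw [hM1, hm'r]; linarith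
        have e2 : (m + 1 : ℝ) ≤ 2 * μ + 1 := by linarith
        gcongr
        linarith
    _ = 2 * (2 * h + 2) / ((m + 1) * M1) := by field_simp
    _ ≤ 4 * (2 * h + 2) / (Nr * (Nr - (2 * h + 2))) := by
        have e3 : Nr - (2 * h + 2) = m + 1 := by rw [hNr]; ring
        rw [e3, div_le_div_iff₀ (by positivity) (by positivity)]
        have e4 : Nr ≤ 2 * M1 := by rw [hNr, hM1, hm'r]; linarith
        have e5 : (0 : ℝ) ≤ 2 * (2 * h + 2) * (m + 1) := by positivity
        nlinarith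

/-- the weights have sum one -/
theorem weight_sum {N h : ℕ} (hN : 2 * h + 2 < N) :
    ∑ j ∈ range (N - 1), (g (N - 2) h j : ℝ) * (N / ((2 * h + 2) * N.choose (2 * h + 2))) = 1 := by
  rw [← sum_mul]
  have h1 : ∑ j ∈ range (N - 1), g (N - 2) h j = (N - 1).choose (2 * h + 1) := by
    have h2 := sum_choose h (N - 2) h
    have e1 : N - 2 + 1 = N - 1 := by omega
    have e2 : h + h + 1 = 2 * h + 1 := by ring
    rw [e1, e2] at h2
    exact h2
  have h3 : (∑ j ∈ range (N - 1), (g (N - 2) h j : ℝ)) = ((N - 1).choose (2 * h + 1) : ℝ) := by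
    rw [← Nat.cast_sum, h1]
  rw [h3]
  obtain ⟨M, rfl⟩ : ∃ M, N = M + 1 := ⟨N - 1, by omega⟩
  have h4 := Nat.add_one_mul_choose_eq M (2 * h + 1)
  have hp : (0 : ℝ) < ((M + 1).choose (2 * h + 2) : ℝ) := by
    exact_mod_cast Nat.choose_pos (by omega)
  rw [Nat.add_sub_cancel, mul_div_assoc', div_eq_one_iff_eq (by positivity)]
  have h5 : (((M + 1) * M.choose (2 * h + 1) : ℕ) : ℝ) =
      (((M + 1).choose (2 * h + 1 + 1) * (2 * h + 1 + 1) : ℕ) : ℝ) := by rw [h4]
  have e : 2 * h + 1 + 1 = 2 * h + 2 := rfl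
  rw [e] at h5
  push_cast at h5 ⊢
  linarith

/-- the sum of the weights of all pairs -/
theorem level_sum {N : ℕ} {P' : Fin N → ℝ × ℝ} (hG : Pool.Agent.H189R2.Iid.GP P') {h : ℕ}
    (hN : 2 * h + 2 < N) :
    ∑ q ∈ T P', (g (N - 2) h (lev P' q) : ℝ) ≤
      114 * ((2 * h + 2 : ℝ) ^ (7 / 6 : ℝ) * ((N : ℝ) / (N - (2 * h + 2))) ^ (1 / 6 : ℝ)) *
        N.choose (2 * h + 2) := by
  classical
  set n : ℝ := (2 * h + 2 : ℝ) with hn
  have hn0 : 0 < n := by rw [hn]; positivity
  set m : ℝ := (N : ℝ) - n with hm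
  have hm0 : 0 < m := by
    rw [hm, hn]
    have : ((2 * h + 2 : ℕ) : ℝ) < N := by exact_mod_cast hN
    push_cast at this
    linarith
  have hN0 : (0 : ℝ) < N := by exact_mod_cast (by omega : 0 < N)
  set B : ℝ := (N.choose (2 * h + 2) : ℝ) with hB
  have hB0 : 0 < B := by
    rw [hB]
    exact_mod_cast Nat.choose_pos hN.le
  set w : ℕ → ℝ := fun j => (g (N - 2) h j : ℝ) * (N / (n * B)) with hw
  set M0 : ℝ := Real.sqrt (4 * n / (N * m)) with hM0
  have hM0p : 0 < M0 := Real.sqrt_pos.mpr (by positivity)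
  have hw0 : ∀ j, 0 ≤ w j := fun j => by rw [hw]; positivity
  have hwM : ∀ j < N - 1, w j ≤ M0 := by
    intro j hj
    apply Real.le_sqrt_of_sq_le
    exact weight_sq hN (by omega)
  have hwsum : ∑ j ∈ range (N - 1), w j ≤ 2 := by
    have := weight_sum (N := N) (h := h) hN
    rw [hw]
    linarith
  have h2 := sum_below hG (w := w) (M := M0) (J := N - 1) (by omega) hM0p (fun j _ => hw0 j) hwM
    hwsum
  have hEW : EW P' (range (N - 1)) = T P' := by
    unfold EW
    rw [filter_true_of_mem]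
    intro q hq
    rw [mem_range]
    have hlt := mem_T.mp hq
    have hne : q.1 ≠ q.2 := fun he => by rw [he] at hlt; exact lt_irrefl _ hlt
    have hsub : lowSet P' q ⊆ (univ.erase q.1).erase q.2 := by
      intro x hx
      unfold lowSet at hx
      rw [mem_filter] at hx
      rw [mem_erase, mem_erase]
      refine ⟨?_, ?_, mem_univ _⟩
      · rintro rfl
        exact snd_notMem_low hlt hx.2
      · rintro rfl
        exact fst_notMem_low _ _ hx.2
    have := card_le_card hsub
    rw [card_erase_of_mem (mem_erase.mpr ⟨Ne.symm hne, mem_univ _⟩),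
      card_erase_of_mem (mem_univ _), card_univ, Fintype.card_fin] at this
    rw [lev_eq]
    omega
  rw [hEW] at h2
  have h3 : ∑ q ∈ T P', (g (N - 2) h (lev P' q) : ℝ) = n * B / N * ∑ q ∈ T P', w (lev P' q) := by
    rw [mul_sum]
    apply sum_congr rfl
    intro q _
    rw [hw]
    field_simp
  have hJ : ((N - 1 : ℕ) : ℝ) ^ (1 / 3 : ℝ) ≤ (N : ℝ) ^ (1 / 3 : ℝ) := by
    apply Real.rpow_le_rpow (Nat.cast_nonneg _) _ (by norm_num)
    exact_mod_cast Nat.sub_le _ _
  set a : ℝ := (N : ℝ) ^ (1 / 3 : ℝ) with ha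
  set b : ℝ := M0 ^ (1 / 3 : ℝ) with hb
  set c : ℝ := n ^ (7 / 6 : ℝ) * ((N : ℝ) / m) ^ (1 / 6 : ℝ) with hc
  have hfin : n * (a * b) ≤ 126 / 100 * c := by
    have e1 : (n * (a * b)) ^ 6 = 4 * (n ^ 7 * (N / m)) := by
      have a1 : a ^ 6 = (N : ℝ) ^ 2 := by
        rw [ha, ← Real.rpow_natCast, ← Real.rpow_mul hN0.le]
        norm_num
      have b1 : b ^ 6 = M0 ^ 2 := by
        rw [hb, ← Real.rpow_natCast, ← Real.rpow_mul hM0p.le]
        norm_num
      have b2 : M0 ^ 2 = 4 * n / (N * m) := Real.sq_sqrt (by positivity)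
      calc (n * (a * b)) ^ 6 = n ^ 6 * (a ^ 6 * b ^ 6) := by ring
        _ = n ^ 6 * ((N : ℝ) ^ 2 * (4 * n / (N * m))) := by rw [a1, b1, b2]
        _ = _ := by field_simp
    have e2 : (126 / 100 * c) ^ 6 = (126 / 100) ^ 6 * (n ^ 7 * (N / m)) := by
      have c1 : (n ^ (7 / 6 : ℝ)) ^ 6 = n ^ 7 := by
        rw [← Real.rpow_natCast, ← Real.rpow_mul hn0.le]
        norm_num
      have c2 : (((N : ℝ) / m) ^ (1 / 6 : ℝ)) ^ 6 = N / m := by
        rw [← Real.rpow_natCast, ← Real.rpow_mul (by positivity)]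
        norm_num
      rw [hc, mul_pow, mul_pow, c1, c2]
    have e3 : (n * (a * b)) ^ 6 ≤ (126 / 100 * c) ^ 6 := by
      rw [e1, e2]
      have : 0 ≤ n ^ 7 * (N / m) := by positivity
      nlinarith
    exact le_of_pow_le_pow_left₀ (by norm_num) (by positivity) e3
  calc ∑ q ∈ T P', (g (N - 2) h (lev P' q) : ℝ)
      = n * B / N * ∑ q ∈ T P', w (lev P' q) := h3
    _ ≤ n * B / N * (90 * N * (((N - 1 : ℕ) : ℝ) ^ (1 / 3 : ℝ) * M0 ^ (1 / 3 : ℝ))) := by gcongr
    _ ≤ n * B / N * (90 * N * (a * b)) := by gcongr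
    _ = 90 * (n * (a * b)) * B := by field_simp
    _ ≤ 90 * (126 / 100 * c) * B := by gcongr
    _ ≤ 114 * c * B := by
        have : 0 ≤ c * B := by positivity
        nlinarith

/-- **The average number of bisectors over the subsets of size `2 h + 2`.** -/
theorem main (hP : Gen P) {h : ℕ} (hN : 2 * h + 2 < #P) :
    (∑ R ∈ P.powersetCard (2 * h + 2), ({L | IsBisector R L}.ncard : ℝ)) ≤
      114 * ((2 * h + 2 : ℝ) ^ (7 / 6 : ℝ) * ((#P : ℝ) / (#P - (2 * h + 2))) ^ (1 / 6 : ℝ)) *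
        (#P).choose (2 * h + 2) := by
  obtain ⟨ε, hε⟩ := exists_shear P
  obtain ⟨P', hG⟩ := exists_good hP hε
  have h1 := sum_bis hG hε h
  have h4 : (∑ R ∈ P.powersetCard (2 * h + 2), ({L | IsBisector R L}.ncard : ℝ)) ≤
      ∑ q ∈ T P', (g (#P - 2) h (lev P' q) : ℝ) := by exact_mod_cast h1
  exact h4.trans (level_sum hG.1 hN)

end Pool.Agent.Run7.h739.RD
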